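import Pool.Agent.H24TT.Proof

/-!
# MP_7ddfd8_al, Q1: a negative answer

The universe is the countable vector space `V = F_3^(ℕ)`; the basic operations are all additive maps
`f : V ^ n → V` whose kernel is `{x | ∀ i ∈ S, x i = 0}` for some nonempty set `S` of coordinates.
-/

set_option autoImplicit false

namespace Pool.Agent.Results.MP_7ddfd8_al.NoTerminatorTerms

open Pool.Agent.H24TT

/-- There is a closed oligomorphic algebra with a countably infinite universe which satisfies a
finite nontrivial set of linear identities (all symbols of positive arity), but has no terminator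
terms. -/
theorem result : ∃ (A ι : Type) (ar : ι → ℕ) (op : ∀ i, (Fin (ar i) → A) → A),
    Infinite A ∧ ClosedOligomorphic ar op ∧
    (∃ (F : Type) (arF : F → ℕ) (E : Set (LinTerm F arF × LinTerm F arF)),
      (∀ f, 0 < arF f) ∧ E.Finite ∧ NontrivialIdentities E ∧ SatisfiesIdentities ar op E) ∧
    ¬ HasTerminatorTerms ar op :=
  ⟨V, Idx, arI, opI, inferInstance, closedOligomorphic,
    ⟨Fin 5, ar5, ids, fun _ => Nat.succ_pos 4, ids_finite, ids_nontrivial, ids_satisfied⟩, not_terminator⟩

end Pool.Agent.Results.MP_7ddfd8_al.NoTerminatorTerms
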